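import Pool.Agent.helper63.Dg4.Spec

/-!
# Deactivating columns, and the trivial condition
-/

namespace Pool.Agent.helper63.Dg4

open Encodable Pool.Agent.helper63.Diag

/-- The status list `a` with the columns `κ` of status `2` and `b κ ≠ 2` made dead. -/
def redAb (a b : List ℕ) : List ℕ :=
  (List.range a.length).map (fun κ => if a.getD κ 0 = 2 ∧ b.getD κ 0 ≠ 2 then 1 else a.getD κ 0)

theorem redAb_getD (a b : List ℕ) (κ : ℕ) : (redAb a b).getD κ 0 =
    if a.getD κ 0 = 2 ∧ b.getD κ 0 ≠ 2 then 1 else a.getD κ 0 := by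
  unfold redAb
  by_cases h : κ < a.length
  · rw [List.getD_eq_getElem?_getD, List.getElem?_map, List.getElem?_range h]
    rfl
  · have h1 : ∀ l : List ℕ, l.length ≤ κ → l.getD κ 0 = 0 := by
      intro l hl
      rw [List.getD_eq_getElem?_getD, List.getElem?_eq_none hl]
      rfl
    rw [h1 a (not_lt.1 h), h1 _ (by simpa using not_lt.1 h)]
    simp

theorem redAb_two {a b : List ℕ} {κ : ℕ} (h : (redAb a b).getD κ 0 = 2) :
    a.getD κ 0 = 2 ∧ b.getD κ 0 = 2 := by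
  rw [redAb_getD] at h
  by_cases h1 : a.getD κ 0 = 2 ∧ b.getD κ 0 ≠ 2
  · rw [if_pos h1] at h
    omega
  · rw [if_neg h1] at h
    refine ⟨h, ?_⟩
    by_contra hb
    exact h1 ⟨h, hb⟩

theorem redAb_zero {a b : List ℕ} {κ : ℕ} (h : (redAb a b).getD κ 0 = 0) :
    a.getD κ 0 = 0 := by
  rw [redAb_getD] at h
  by_cases h1 : a.getD κ 0 = 2 ∧ b.getD κ 0 ≠ 2
  · rw [if_pos h1] at h
    omega
  · rw [if_neg h1] at h
    exact h

/-- The condition `r` with the columns which are active in `r` but not in `b` made dead. -/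
def redCond (r : Cond) (b : List ℕ) : Cond where
  ab := redAb r.ab b
  ce := r.ce
  σ := r.σ
  n := r.n
  fl := r.fl
  Y := r.Y
  z0 := r.z0
  Bad := r.Bad
  re := r.re
  hfl := r.hfl
  inv := by
    intro v hv κ hκ
    exact r.inv v hv κ (redAb_two hκ).1
  fl_ne := by
    intro v hv κ hκ
    exact r.fl_ne v hv κ (redAb_two hκ).1
  yc := by
    intro v hv κ hκ
    exact r.yc v hv κ (redAb_two hκ).1
  zz := by
    intro v hv κ hκ
    exact r.zz v hv κ (redAb_zero hκ)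
  ne := r.ne

theorem redCond_ab (r : Cond) (b : List ℕ) (κ : ℕ) : (redCond r b).ab.getD κ 0 =
    if r.ab.getD κ 0 = 2 ∧ b.getD κ 0 ≠ 2 then 1 else r.ab.getD κ 0 := redAb_getD _ _ κ

theorem RED : RED_stmt := by
  intro p r q0 hrp hpq hs
  have hsat : ∀ g, Sat (redCond r q0.ab) g → Sat r g := by
    rintro g ⟨h1, v, hv, h2⟩
    refine ⟨h1, v, hv, fun i hi => ?_⟩
    obtain ⟨h3, h4⟩ := h2 i hi
    rw [redCond_ab] at h3 h4
    constructor
    · intro h
      exact h3 (by rw [if_neg (by rintro ⟨h', -⟩; omega)]; exact h)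
    · intro h
      by_cases hb : q0.ab.getD (col i) 0 = 2
      · exact h4 (by rw [if_neg (by rintro ⟨-, h'⟩; exact h' hb)]; exact h)
      · exact Or.inl (h3 (by rw [if_pos ⟨h, hb⟩]))
  refine ⟨redCond r q0.ab, ⟨?_, hrp.2.1, fun g hg => hrp.2.2 g (hsat g hg)⟩, ?_, hsat⟩
  · intro κ hκ
    obtain ⟨h1, h2⟩ := hrp.1 κ hκ
    refine ⟨?_, h2⟩
    rw [redCond_ab, if_neg, h1]
    rintro ⟨h3, h4⟩
    rw [h1] at h3
    exact h4 (hs κ h3).1
  · intro κ hκ
    obtain ⟨hκ, hb⟩ := redAb_two hκ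
    refine ⟨hb, ?_⟩
    obtain ⟨h1, h2⟩ := hpq.1 κ (by omega)
    obtain ⟨h3, h4⟩ := hrp.1 κ (by omega)
    exact h4.trans h2

theorem PZ (hHEX : HEX_stmt) : PZ_stmt := by
  obtain ⟨C⟩ := hHEX
  refine ⟨{ ab := [], ce := fun _ => C, σ := [], n := 1, fl := fun _ => 0, Y := fun _ _ => 0,
            z0 := 0, Bad := fun _ => False, re := ?_, hfl := Primrec.const 0, inv := ?_,
            fl_ne := ?_, yc := ?_, zz := ?_, ne := ?_ }, rfl, rfl⟩
  · exact S1.prim (A := fun _ : List ℕ => False)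
      ⟨inferInstance, Primrec.const false |>.of_eq (fun _ => by simp)⟩
  · intro v _ κ hκ
    simp at hκ
  · intro v _ κ hκ
    simp at hκ
  · intro v _ κ hκ
    simp at hκ
  · intro v hv κ _ x
    exact Nat.lt_one_iff.1 (hv.1 _)
  · exact ⟨fun _ => 0, fun _ => Nat.one_pos, fun _ h => h⟩

end Pool.Agent.helper63.Dg4
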